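import Mathlib

/-!
A Gaussian sum over the residues modulo `l`.
-/

set_option autoImplicit false

open Finset MeasureTheory

namespace Pool.Agent.UPI

theorem gauss_half {B : ℝ} (hB : 0 < B) (n : ℕ) :
    ∑ j ∈ range n, Real.exp (-(B * ((j + 1 : ℕ) : ℝ) ^ 2)) ≤ Real.sqrt (Real.pi / B) / 2 := by
  have hanti : AntitoneOn (fun x : ℝ => Real.exp (-B * x ^ 2)) (Set.Icc 0 (0 + (n : ℝ))) := by
    intro x hx y hy hxy
    refine Real.exp_le_exp.2 ?_
    have : x ^ 2 ≤ y ^ 2 := pow_le_pow_left₀ hx.1 hxy 2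
    nlinarith
  have h1 := hanti.sum_le_integral
  have h2 : ∫ x in (0 : ℝ)..(0 + (n : ℝ)), Real.exp (-B * x ^ 2) ≤
      ∫ x in Set.Ioi (0 : ℝ), Real.exp (-B * x ^ 2) := by
    rw [zero_add, intervalIntegral.integral_of_le (by positivity)]
    refine setIntegral_mono_set ?_ (Filter.Eventually.of_forall fun x => (Real.exp_pos _).le)
      (Filter.Eventually.of_forall fun x hx => hx.1)
    exact (integrable_exp_neg_mul_sq hB).integrableOn
  rw [integral_gaussian_Ioi] at h2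
  refine le_trans (le_of_eq ?_) (h1.trans h2)
  refine sum_congr rfl fun j _ => ?_
  rw [zero_add, neg_mul]

/-- **the Gaussian sum** -/
theorem gauss_sum_le {A : ℝ} (hA : 0 < A) {l : ℕ} (hl : 1 ≤ l) :
    ∑ h ∈ range l, Real.exp (-(A * (min (h : ℝ) ((l : ℝ) - h)) ^ 2 / (l : ℝ) ^ 2)) ≤
      3 + 4 * l / Real.sqrt A := by
  have hl0 : (0 : ℝ) < l := by exact_mod_cast hl
  set B : ℝ := A / (l : ℝ) ^ 2 with hB
  have hB0 : 0 < B := by positivity
  have hG : Real.sqrt (Real.pi / B) / 2 ≤ l / Real.sqrt A := by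
    have e : Real.pi / B = Real.pi * ((l : ℝ) ^ 2 / A) := by
      rw [hB]; field_simp
    have h4 : Real.sqrt Real.pi ≤ 2 := by
      rw [show (2 : ℝ) = Real.sqrt 4 by
        rw [show (4 : ℝ) = 2 ^ 2 by norm_num]; exact (Real.sqrt_sq (by norm_num)).symm]
      exact Real.sqrt_le_sqrt Real.pi_le_four
    rw [e, Real.sqrt_mul Real.pi_pos.le, Real.sqrt_div (by positivity), Real.sqrt_sq hl0.le]
    have h5 : 0 ≤ (l : ℝ) / Real.sqrt A := by positivity
    nlinarith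
  have hterm : ∀ h ∈ range l, Real.exp (-(A * (min (h : ℝ) ((l : ℝ) - h)) ^ 2 / (l : ℝ) ^ 2)) ≤
      Real.exp (-(B * (h : ℝ) ^ 2)) + Real.exp (-(B * ((l : ℝ) - h) ^ 2)) := by
    intro h _
    have e : ∀ x : ℝ, A * x ^ 2 / (l : ℝ) ^ 2 = B * x ^ 2 := by
      intro x; rw [hB]; ring
    rw [e]
    rcases min_choice (h : ℝ) ((l : ℝ) - h) with h1 | h1
    · rw [h1]; linarith [Real.exp_pos (-(B * ((l : ℝ) - h) ^ 2))]
    · rw [h1]; linarith [Real.exp_pos (-(B * (h : ℝ) ^ 2))]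
  have hs1 : ∑ h ∈ range l, Real.exp (-(B * (h : ℝ) ^ 2)) ≤ 1 + l / Real.sqrt A := by
    obtain ⟨m, rfl⟩ : ∃ m, l = m + 1 := ⟨l - 1, by omega⟩
    rw [sum_range_succ']
    have := gauss_half hB0 m
    simp only [Nat.cast_zero, ne_eq, OfNat.ofNat_ne_zero, not_false_eq_true, zero_pow, mul_zero,
      neg_zero, Real.exp_zero]
    linarith
  have hs2 : ∑ h ∈ range l, Real.exp (-(B * ((l : ℝ) - h) ^ 2)) ≤ l / Real.sqrt A := by
    rw [← sum_range_reflect]
    refine le_trans (le_of_eq ?_) ((gauss_half hB0 l).trans hG)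
    refine sum_congr rfl fun j hj => ?_
    rw [mem_range] at hj
    have e : ((l - 1 - j : ℕ) : ℝ) = (l : ℝ) - 1 - j := by
      rw [Nat.cast_sub (by omega), Nat.cast_sub hl]; simp
    rw [e]
    push_cast
    congr 3
    ring
  have h6 : 0 ≤ (l : ℝ) / Real.sqrt A := by positivity
  calc ∑ h ∈ range l, Real.exp (-(A * (min (h : ℝ) ((l : ℝ) - h)) ^ 2 / (l : ℝ) ^ 2))
      ≤ ∑ h ∈ range l, (Real.exp (-(B * (h : ℝ) ^ 2)) + Real.exp (-(B * ((l : ℝ) - h) ^ 2))) :=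
        sum_le_sum hterm
    _ = ∑ h ∈ range l, Real.exp (-(B * (h : ℝ) ^ 2)) +
          ∑ h ∈ range l, Real.exp (-(B * ((l : ℝ) - h) ^ 2)) := sum_add_distrib
    _ ≤ 1 + l / Real.sqrt A + l / Real.sqrt A := add_le_add hs1 hs2
    _ ≤ 3 + 4 * l / Real.sqrt A := by rw [mul_div_assoc]; linarith

end Pool.Agent.UPI
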