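import Pool.Agent.UPI.Rho
import Pool.Agent.H31LI.Val

/-! One sided quantitative bound for the sums of `ω ^ v_q(a!) η ^ v_p(a!)`. -/

set_option autoImplicit false

namespace Pool.Agent.UPI

open Finset Filter Topology H31LI

theorem blk {p q : ℕ} (hp : 2 ≤ p) (hq : 2 ≤ q) (hco : Nat.Coprime q p) {F G : ℕ → ℂ}
    (hF : Dig q F) (hG : Dig p G) {t s : ℕ} {M : ℝ} (hM : 0 ≤ M)
    (hdec : ∀ z : ℂ, ‖z‖ = 1 → ‖∑ v ∈ range (q ^ t), F v * z ^ v‖ ≤ M * (q : ℝ) ^ t) (N : ℕ) :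
    ‖∑ n ∈ range N, F n * G n‖ ≤ N * M + N * ((q : ℝ) ^ t / (p : ℝ) ^ s) +
      (q : ℝ) ^ t * (p : ℝ) ^ s := by
  have hq0 : (0 : ℝ) < (q : ℝ) ^ t := by positivity
  have hp0 : (0 : ℝ) < (p : ℝ) ^ s := by positivity
  set L : ℕ := q ^ t * p ^ s with hL
  have hLr : (L : ℝ) = (q : ℝ) ^ t * (p : ℝ) ^ s := by rw [hL]; push_cast; rfl
  have hL0 : 0 < L := by positivity
  set f : ℕ → ℂ := fun n => F n * G n * (1 : ℂ) ^ n with hf
  have hf0 : ∑ n ∈ range N, F n * G n = ∑ n ∈ range N, f n := by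
    simp [hf]
  have hf1 : ∀ n, ‖f n‖ = 1 := by
    intro n
    rw [hf]
    simp only [norm_mul, hF.norm, hG.norm, one_pow, mul_one]
  have hsum : ‖∑ n ∈ range N, f n‖ ≤ (N / L : ℕ) *
      (M * (q : ℝ) ^ t * (p : ℝ) ^ s + ((q : ℝ) ^ t) ^ 2) + L := by
    have h1 : N = q ^ t * (p ^ s * (N / L)) + N % L := by
      rw [← mul_assoc, ← hL]
      exact (Nat.div_add_mod N L).symm
    conv_lhs => rw [h1]
    rw [sum_range_add, sum_range_mul', sum_range_mul']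
    refine (norm_add_le _ _).trans (add_le_add ?_ ?_)
    · refine (norm_sum_le _ _).trans ?_
      have h2 : ∀ k ∈ range (N / L), ‖∑ j ∈ range (p ^ s), ∑ v ∈ range (q ^ t),
          f (q ^ t * (p ^ s * k + j) + v)‖ ≤ M * (q : ℝ) ^ t * (p : ℝ) ^ s +
            ((q : ℝ) ^ t) ^ 2 := by
        intro k _
        refine (norm_sum_le _ _).trans ?_
        exact block_bound (by omega) hF hG (z := 1) (by simp) (Nat.Coprime.pow t s hco)
          (by positivity) hdec k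
      refine (sum_le_sum h2).trans ?_
      rw [sum_const, card_range, nsmul_eq_mul]
    · refine (norm_sum_le _ _).trans ?_
      simp only [hf1, sum_const, card_range, nsmul_eq_mul, mul_one]
      exact_mod_cast (Nat.mod_lt N hL0).le
  have hKL : ((N / L : ℕ) : ℝ) * L ≤ N := by
    exact_mod_cast Nat.div_mul_le_self N L
  rw [hf0]
  refine hsum.trans ?_
  have h3 : M * (q : ℝ) ^ t * (p : ℝ) ^ s + ((q : ℝ) ^ t) ^ 2 =
      L * (M + (q : ℝ) ^ t / (p : ℝ) ^ s) := by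
    rw [hLr]
    field_simp
  rw [h3, ← mul_assoc, hLr] 
  rw [hLr] at hKL
  have h4 : 0 ≤ M + (q : ℝ) ^ t / (p : ℝ) ^ s := by positivity
  have h5 := mul_le_mul_of_nonneg_right hKL h4
  linarith

theorem one_sided {p q : ℕ} (hp : p.Prime) (hq : q.Prime) (hpq : p ≠ q) :
    ∃ c : ℝ, 0 < c ∧ ∃ C : ℝ, 0 ≤ C ∧ ∀ᶠ N : ℕ in atTop, ∀ ω η : ℂ, ‖ω‖ = 1 → ‖η‖ = 1 →
      ‖∑ a ∈ range N, ω ^ padicValNat q a.factorial * η ^ padicValNat p a.factorial‖ ≤
        N * Real.exp (-(c * ‖1 - ω‖ ^ 2 * Real.log N)) + C * (N : ℝ) ^ (2 / 3 : ℝ) := by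
  have : Fact q.Prime := ⟨hq⟩
  have hq1 : (1 : ℝ) < q := by exact_mod_cast hq.one_lt
  have hp1 : (1 : ℝ) < p := by exact_mod_cast hp.one_lt
  have hlq : 0 < Real.log q := Real.log_pos hq1
  refine ⟨1 / (384 * q ^ 3 * Real.log q), by positivity, (p : ℝ) + 1, by positivity, ?_⟩
  filter_upwards [eventually_ge_atTop (q ^ 26)] with N hN ω η hω hη
  have hN1 : 1 ≤ N := le_trans (Nat.one_le_pow _ _ hq.pos) hN
  have hN0 : (0 : ℝ) < N := by exact_mod_cast hN1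
  have hlN : 26 * Real.log q ≤ Real.log N := by
    have h1 : ((q : ℝ) ^ 26) ≤ N := by exact_mod_cast hN
    have h2 := Real.log_le_log (by positivity) h1
    rw [Real.log_pow] at h2
    exact_mod_cast h2
  set u := Nat.log q N with hu
  set T := u / 12 with hT
  set s := Nat.log p N / 2 with hs
  set X : ℝ := (N : ℝ) ^ (1 / 6 : ℝ) with hX
  have hX0 : 0 < X := by positivity
  have hX6 : X ^ 6 = N := by
    rw [hX, ← Real.rpow_natCast, ← Real.rpow_mul hN0.le]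
    norm_num
  have hX4 : X ^ 4 = (N : ℝ) ^ (2 / 3 : ℝ) := by
    rw [hX, ← Real.rpow_natCast, ← Real.rpow_mul hN0.le]
    norm_num
  -- sizes
  have hqT : (q : ℝ) ^ (2 * T) ≤ X := by
    rw [← pow_le_pow_iff_left₀ (by positivity) hX0.le (n := 6) (by norm_num), hX6, ← pow_mul]
    have h1 : q ^ (2 * T * 6) ≤ N := by
      refine le_trans (Nat.pow_le_pow_right hq.pos (?_ : 2 * T * 6 ≤ u)) ?_
      · omega
      · exact Nat.pow_log_le_self q (by omega)
    exact_mod_cast h1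
  have hps : (p : ℝ) ^ s ≤ X ^ 3 := by
    rw [← pow_le_pow_iff_left₀ (by positivity) (by positivity) (n := 2) (by norm_num), ← pow_mul,
      ← pow_mul, hX6]
    have h1 : p ^ (s * 2) ≤ N := by
      refine le_trans (Nat.pow_le_pow_right hp.pos (?_ : s * 2 ≤ Nat.log p N)) ?_
      · omega
      · exact Nat.pow_log_le_self p (by omega)
    exact_mod_cast h1
  have hps' : X ^ 3 ≤ (p : ℝ) * (p : ℝ) ^ s := by
    rw [← pow_succ', ← pow_le_pow_iff_left₀ (by positivity) (by positivity) (n := 2) (by norm_num),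
      ← pow_mul, ← pow_mul, hX6]
    have h1 : N ≤ p ^ ((s + 1) * 2) := by
      refine le_trans (Nat.lt_pow_succ_log_self hp.one_lt N).le
        (Nat.pow_le_pow_right hp.pos ?_)
      omega
    exact_mod_cast h1
  have hTlow : Real.log N / (24 * Real.log q) ≤ T := by
    have h1 : (N : ℝ) < (q : ℝ) ^ (u + 1) := by
      exact_mod_cast Nat.lt_pow_succ_log_self hq.one_lt N
    have h2 := Real.log_lt_log hN0 h1
    rw [Real.log_pow] at h2
    have h3 : (u : ℝ) < 12 * T + 12 := by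
      have : u < 12 * T + 12 := by omega
      exact_mod_cast this
    rw [div_le_iff₀ (by positivity)]
    push_cast at h2
    nlinarith
  -- decay
  have hFd := dig_Fv hq hω
  have hGd := dig_Fv hp hη
  have hdec : ∀ z : ℂ, ‖z‖ = 1 → ‖∑ v ∈ range (q ^ (2 * T)), Fv q ω v * z ^ v‖ ≤
      Real.exp (-(‖1 - ω‖ ^ 2 / (16 * q ^ 3) * T)) * (q : ℝ) ^ (2 * T) := by
    intro z hz
    refine _root_.UPI.decay_quant hq.two_le hFd hω ?_ ?_ T z hz
    · intro t d hd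
      rw [Fv, Fv, val_pow_mul t d hd, ← pow_mul, mul_comm]
    · intro t
      rw [Fv, Fv, val_pow_succ, pow_add, pow_one, ← pow_mul, mul_comm q]
  have hco : Nat.Coprime q p := (Nat.coprime_primes hq hp).2 (Ne.symm hpq)
  have hb := blk hp.two_le hq.two_le hco hFd hGd (s := s) (Real.exp_pos _).le hdec N
  have hexp : Real.exp (-(‖1 - ω‖ ^ 2 / (16 * q ^ 3) * T)) ≤
      Real.exp (-(1 / (384 * q ^ 3 * Real.log q) * ‖1 - ω‖ ^ 2 * Real.log N)) := by
    rw [Real.exp_le_exp, neg_le_neg_iff]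
    calc 1 / (384 * (q : ℝ) ^ 3 * Real.log q) * ‖1 - ω‖ ^ 2 * Real.log N
        = ‖1 - ω‖ ^ 2 / (16 * q ^ 3) * (Real.log N / (24 * Real.log q)) := by
          field_simp
          ring
      _ ≤ _ := by gcongr
  have h1 : (N : ℝ) * ((q : ℝ) ^ (2 * T) / (p : ℝ) ^ s) ≤ p * X ^ 4 := by
    have hp0 : (0 : ℝ) < (p : ℝ) ^ s := by positivity
    rw [← mul_div_assoc, div_le_iff₀ hp0, ← hX6]
    calc X ^ 6 * (q : ℝ) ^ (2 * T) ≤ X ^ 6 * X := by gcongr
      _ = X ^ 4 * X ^ 3 := by ring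
      _ ≤ X ^ 4 * ((p : ℝ) * (p : ℝ) ^ s) := by gcongr
      _ = _ := by ring
  have h2 : (q : ℝ) ^ (2 * T) * (p : ℝ) ^ s ≤ X ^ 4 := by
    calc (q : ℝ) ^ (2 * T) * (p : ℝ) ^ s ≤ X * X ^ 3 := by gcongr
      _ = X ^ 4 := by ring
  have h3 : (N : ℝ) * Real.exp (-(‖1 - ω‖ ^ 2 / (16 * q ^ 3) * T)) ≤
      N * Real.exp (-(1 / (384 * q ^ 3 * Real.log q) * ‖1 - ω‖ ^ 2 * Real.log N)) := by
    gcongr
  have h4 : ∑ a ∈ range N, ω ^ padicValNat q a.factorial * η ^ padicValNat p a.factorial =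
      ∑ n ∈ range N, Fv q ω n * Fv p η n := rfl
  rw [h4, ← hX4]
  linarith

end Pool.Agent.UPI
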