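import Pool.Agent.UPI.Det
import Pool.Agent.UPI.Gau
import Pool.Agent.UPI.One

/-!
The number of `a < N` with `l ∣ v_p(a!)` and `l ∣ v_q(a!)`, uniformly in the prime `l`.
-/

set_option autoImplicit false

open Finset Filter

namespace Pool.Agent.UPI

open H31LI

/-- the smaller one of two exponentials is at most their geometric mean -/
lemma min_exp_le {K R x y S : ℝ} (hK : 0 ≤ K) (h1 : S ≤ K * Real.exp (-x) + R)
    (h2 : S ≤ K * Real.exp (-y) + R) : S ≤ K * Real.exp (-((x + y) / 2)) + R := by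
  rcases le_total x y with h | h
  · refine h2.trans (add_le_add_left (mul_le_mul_of_nonneg_left ?_ hK) R)
    exact Real.exp_le_exp.2 (by linarith)
  · refine h1.trans (add_le_add_left (mul_le_mul_of_nonneg_left ?_ hK) R)
    exact Real.exp_le_exp.2 (by linarith)

theorem count_bound {p q : ℕ} (hp : p.Prime) (hq : q.Prime) (hpq : p ≠ q) :
    ∃ C : ℝ, 0 ≤ C ∧ ∀ᶠ N : ℕ in atTop, ∀ l : ℕ, l.Prime →
      (((range N).filter fun a => l ∣ padicValNat p a.factorial ∧
        l ∣ padicValNat q a.factorial).card : ℝ) ≤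
      N * (C / l + C / √(Real.log N)) ^ 2 + C * (N:ℝ) ^ (2/3 : ℝ) := by
  obtain ⟨c1, hc1, C1, hC1, H1⟩ := one_sided hp hq hpq
  obtain ⟨c2, hc2, C2, hC2, H2⟩ := one_sided hq hp hpq.symm
  set c : ℝ := min c1 c2 with hc
  have hc0 : 0 < c := lt_min hc1 hc2
  set C0 : ℝ := max C1 C2 with hC0
  have hC00 : 0 ≤ C0 := hC1.trans (le_max_left _ _)
  refine ⟨3 + 4 / √(8 * c) + C0, by positivity, ?_⟩
  filter_upwards [H1, H2, eventually_ge_atTop 3] with N h1 h2 hN l hl
  have hl1 : 1 ≤ l := hl.one_lt.le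
  have hl0 : (0 : ℝ) < l := by exact_mod_cast hl1
  have hlne : l ≠ 0 := by omega
  have hL : 0 < Real.log N := Real.log_pos (by exact_mod_cast (by omega : 1 < N))
  set L := Real.log N with hLdef
  set R : ℝ := C0 * (N:ℝ) ^ (2/3 : ℝ) with hR
  have hN0 : (0 : ℝ) ≤ N := Nat.cast_nonneg N
  have hP0 : 0 ≤ (N:ℝ) ^ (2/3 : ℝ) := Real.rpow_nonneg hN0 _
  have hR0 : 0 ≤ R := mul_nonneg hC00 hP0
  set A : ℝ := 8 * c * L with hA
  have hA0 : 0 < A := by positivity
  -- the bound for one term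
  have hterm : ∀ h ∈ range l, ∀ h' ∈ range l,
      ‖∑ a ∈ range N, (rt l ^ h) ^ padicValNat p a.factorial *
        (rt l ^ h') ^ padicValNat q a.factorial‖ ≤
      N * (Real.exp (-(A * (min (h : ℝ) ((l : ℝ) - h)) ^ 2 / (l : ℝ) ^ 2)) *
        Real.exp (-(A * (min (h' : ℝ) ((l : ℝ) - h')) ^ 2 / (l : ℝ) ^ 2))) + R := by
    intro h hh h' hh'
    rw [mem_range] at hh hh'
    have n1 : ‖rt l ^ h‖ = 1 := by rw [norm_pow, norm_rt hlne, one_pow]
    have n2 : ‖rt l ^ h'‖ = 1 := by rw [norm_pow, norm_rt hlne, one_pow]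
    have g1 := h1 (rt l ^ h') (rt l ^ h) n2 n1
    have g2 := h2 (rt l ^ h) (rt l ^ h') n1 n2
    have e1 : ∑ a ∈ range N, (rt l ^ h') ^ padicValNat q a.factorial *
        (rt l ^ h) ^ padicValNat p a.factorial = ∑ a ∈ range N,
        (rt l ^ h) ^ padicValNat p a.factorial * (rt l ^ h') ^ padicValNat q a.factorial :=
      sum_congr rfl fun a _ => mul_comm _ _
    rw [e1] at g1
    have key : ∀ (c' C' : ℝ) (g : ℕ) (hg : g < l), c ≤ c' → C' ≤ C0 →
        N * Real.exp (-(c' * ‖1 - rt l ^ g‖ ^ 2 * L)) + C' * (N:ℝ) ^ (2/3 : ℝ) ≤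
        N * Real.exp (-(2 * (A * (min (g : ℝ) ((l : ℝ) - g)) ^ 2 / (l : ℝ) ^ 2))) + R := by
      intro c' C' g hg hcc hCC
      have hd := norm_one_sub_rt hg
      have hm0 : 0 ≤ min (g : ℝ) ((l : ℝ) - g) := by
        refine le_min (Nat.cast_nonneg g) ?_
        have : (g : ℝ) ≤ l := by exact_mod_cast hg.le
        linarith
      refine add_le_add (mul_le_mul_of_nonneg_left (Real.exp_le_exp.2 (neg_le_neg ?_)) hN0)
        (mul_le_mul_of_nonneg_right hCC hP0)
      have hsq : 16 * ((min (g : ℝ) ((l : ℝ) - g)) ^ 2 / (l : ℝ) ^ 2) ≤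
          ‖1 - rt l ^ g‖ ^ 2 := by
        have := pow_le_pow_left₀ (by positivity) hd 2
        calc 16 * ((min (g : ℝ) ((l : ℝ) - g)) ^ 2 / (l : ℝ) ^ 2)
            = (4 * (min (g : ℝ) ((l : ℝ) - g) / l)) ^ 2 := by ring
          _ ≤ _ := this
      calc 2 * (A * (min (g : ℝ) ((l : ℝ) - g)) ^ 2 / (l : ℝ) ^ 2)
          = c * (16 * ((min (g : ℝ) ((l : ℝ) - g)) ^ 2 / (l : ℝ) ^ 2)) * L := by rw [hA]; ring
        _ ≤ c' * ‖1 - rt l ^ g‖ ^ 2 * L := by
            refine mul_le_mul_of_nonneg_right (mul_le_mul hcc hsq (by positivity) ?_) hL.le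
            exact hc0.le.trans hcc
    have k1 := g1.trans (key c1 C1 h' hh' (min_le_left _ _) (le_max_left _ _))
    have k2 := g2.trans (key c2 C2 h hh (min_le_right _ _) (le_max_right _ _))
    have k3 := min_exp_le hN0 k2 k1
    refine k3.trans (le_of_eq ?_)
    rw [← Real.exp_add]
    ring_nf
  have hsum : ∑ h ∈ range l, ∑ h' ∈ range l,
      ‖∑ a ∈ range N, (rt l ^ h) ^ padicValNat p a.factorial *
        (rt l ^ h') ^ padicValNat q a.factorial‖ ≤
      N * (3 + 4 * l / √A) ^ 2 + l ^ 2 * R := by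
    refine (sum_le_sum fun h hh => sum_le_sum fun h' hh' => hterm h hh h' hh').trans ?_
    have e2 : ∑ h ∈ range l, ∑ h' ∈ range l,
        ((N : ℝ) * (Real.exp (-(A * (min (h : ℝ) ((l : ℝ) - h)) ^ 2 / (l : ℝ) ^ 2)) *
          Real.exp (-(A * (min (h' : ℝ) ((l : ℝ) - h')) ^ 2 / (l : ℝ) ^ 2))) + R) =
        N * (∑ h ∈ range l, Real.exp (-(A * (min (h : ℝ) ((l : ℝ) - h)) ^ 2 / (l : ℝ) ^ 2))) ^ 2
          + l ^ 2 * R := by
      simp_rw [sum_add_distrib, ← mul_sum, ← sum_mul]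
      simp only [sum_const, card_range, nsmul_eq_mul]
      ring
    rw [e2]
    refine add_le_add_left (mul_le_mul_of_nonneg_left (pow_le_pow_left₀ ?_
      (gauss_sum_le hA0 hl1) 2) hN0) _
    exact sum_nonneg fun _ _ => (Real.exp_pos _).le
  have hdet := (detect hl1 (fun a => padicValNat p a.factorial)
    (fun a => padicValNat q a.factorial) N).trans hsum
  have hfin : (((range N).filter fun a => l ∣ padicValNat p a.factorial ∧
        l ∣ padicValNat q a.factorial).card : ℝ) ≤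
      N * (3 / l + (4 / √(8 * c)) / √L) ^ 2 + R := by
    have hl2 : (0 : ℝ) < (l : ℝ) ^ 2 := by positivity
    refine le_of_mul_le_mul_left (hdet.trans (le_of_eq ?_)) hl2
    have e3 : √A = √(8 * c) * √L := by rw [hA, Real.sqrt_mul (by positivity)]
    have e4 : √(8 * c) ≠ 0 := by positivity
    have e5 : √L ≠ 0 := by positivity
    rw [e3]
    field_simp
  refine hfin.trans (add_le_add (mul_le_mul_of_nonneg_left (pow_le_pow_left₀ (by positivity)
    ?_ 2) hN0) ?_)
  · have s0 : 0 < √(8 * c) := by positivity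
    have s1 : 0 ≤ 4 / √(8 * c) := by positivity
    refine add_le_add (div_le_div_of_nonneg_right (by linarith) hl0.le)
      (div_le_div_of_nonneg_right (by linarith) (Real.sqrt_nonneg _))
  · have s1 : 0 ≤ 4 / √(8 * c) := by positivity
    exact mul_le_mul_of_nonneg_right (by linarith) hP0

end Pool.Agent.UPI
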