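import Pool.Agent.H31LI.Means

/-!
Detection of two divisibilities by roots of unity, and the distance of a root of unity to `1`.
-/

set_option autoImplicit false

open Finset

namespace Pool.Agent.UPI

open H31LI

/-- **double detection** -/
theorem detect_gen {l : ℕ} (hl : l ≠ 0) (v w : ℕ → ℕ) (s : Finset ℕ) :
    (l : ℝ) ^ 2 * (((s.filter (fun a => l ∣ v a ∧ l ∣ w a)).card : ℕ) : ℝ) ≤
      ∑ h ∈ range l, ∑ h' ∈ range l,
        ‖∑ a ∈ s, (rt l ^ h) ^ v a * (rt l ^ h') ^ w a‖ := by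
  have hlc : (l : ℂ) ≠ 0 := by exact_mod_cast hl
  have h1 : (l : ℂ) ^ 2 * (((s.filter (fun a => l ∣ v a ∧ l ∣ w a)).card : ℕ) : ℂ) =
      ∑ h ∈ range l, ∑ h' ∈ range l, ∑ a ∈ s, (rt l ^ h) ^ v a * (rt l ^ h') ^ w a := by
    have e1 : (((s.filter (fun a => l ∣ v a ∧ l ∣ w a)).card : ℕ) : ℂ) =
        ∑ a ∈ s, (if l ∣ v a then (1 : ℂ) else 0) * (if l ∣ w a then (1 : ℂ) else 0) := by
      rw [card_filter]
      push_cast
      refine sum_congr rfl fun a _ => ?_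
      by_cases g1 : l ∣ v a <;> by_cases g2 : l ∣ w a <;> simp [g1, g2]
    rw [e1, mul_sum]
    have e2 : ∀ a ∈ s, (l : ℂ) ^ 2 * ((if l ∣ v a then (1 : ℂ) else 0) *
        (if l ∣ w a then (1 : ℂ) else 0)) =
        ∑ h ∈ range l, ∑ h' ∈ range l, (rt l ^ h) ^ v a * (rt l ^ h') ^ w a := by
      intro a _
      rw [ind_eq hl, ind_eq hl]
      have e3 : (l : ℂ) ^ 2 * ((l : ℂ)⁻¹ * ∑ b ∈ range l, (rt l ^ b) ^ v a *
          1 * ((l : ℂ)⁻¹ * ∑ b ∈ range l, (rt l ^ b) ^ w a)) =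
          (l : ℂ) ^ 2 * ((l : ℂ)⁻¹ * ∑ b ∈ range l, (rt l ^ b) ^ v a *
          1 * ((l : ℂ)⁻¹ * ∑ b ∈ range l, (rt l ^ b) ^ w a)) := rfl
      rw [← sum_mul_sum]
      field_simp
    rw [sum_congr rfl e2, sum_comm]
    exact sum_congr rfl fun h _ => sum_comm
  have h2 : ((l : ℝ) ^ 2 * (((s.filter (fun a => l ∣ v a ∧ l ∣ w a)).card : ℕ) : ℝ)) =
      ‖(l : ℂ) ^ 2 * (((s.filter (fun a => l ∣ v a ∧ l ∣ w a)).card : ℕ) : ℂ)‖ := by
    rw [norm_mul, norm_pow, Complex.norm_natCast, Complex.norm_natCast]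
  rw [h2, h1]
  refine (norm_sum_le _ _).trans (sum_le_sum fun h _ => ?_)
  exact norm_sum_le _ _

theorem detect {l : ℕ} (hl : 1 ≤ l) (v w : ℕ → ℕ) (N : ℕ) :
    (l : ℝ) ^ 2 * (((range N).filter fun a => l ∣ v a ∧ l ∣ w a).card : ℝ) ≤
      ∑ h ∈ range l, ∑ h' ∈ range l,
        ‖∑ a ∈ range N, (H31LI.rt l ^ h) ^ v a * (H31LI.rt l ^ h') ^ w a‖ :=
  detect_gen (by omega) v w (range N)

/-- the distance of a root of unity to `1` -/
theorem norm_one_sub_rt {l h : ℕ} (hh : h < l) :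
    4 * (min (h : ℝ) ((l : ℝ) - h) / l) ≤ ‖1 - rt l ^ h‖ := by
  have hl0 : (0 : ℝ) < l := by exact_mod_cast (by omega : 0 < l)
  have hle : (h : ℝ) ≤ l := by exact_mod_cast hh.le
  have e1 : rt l ^ h = Complex.exp (Complex.I * ((2 * (Real.pi * (h / l)) : ℝ) : ℂ)) := by
    rw [rt, ← Complex.exp_nat_mul]
    congr 1
    push_cast
    ring
  rw [norm_sub_rev, e1, Complex.norm_exp_I_mul_ofReal_sub_one, Real.norm_eq_abs, abs_mul]
  have e2 : 2 * (Real.pi * ((h : ℝ) / l)) / 2 = Real.pi * ((h : ℝ) / l) := by ring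
  rw [e2, abs_of_pos (by norm_num : (0 : ℝ) < 2)]
  have hx0 : 0 ≤ (h : ℝ) / l := by positivity
  have hx1 : (h : ℝ) / l ≤ 1 := by rw [div_le_one hl0]; exact hle
  have key : ∀ y : ℝ, 0 ≤ y → y ≤ 1 / 2 → 2 * y ≤ Real.sin (Real.pi * y) := by
    intro y hy0 hy1
    have := Real.mul_le_sin (x := Real.pi * y) (by positivity) (by nlinarith [Real.pi_pos])
    have e3 : 2 / Real.pi * (Real.pi * y) = 2 * y := by
      field_simp
    linarith
  have hsin : 2 * (min (h : ℝ) ((l : ℝ) - h) / l) ≤ |Real.sin (Real.pi * ((h : ℝ) / l))| := by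
    rcases le_total ((h : ℝ) / l) (1 / 2) with h1 | h1
    · refine le_trans ?_ ((key _ hx0 h1).trans (le_abs_self _))
      have : min (h : ℝ) ((l : ℝ) - h) / l ≤ (h : ℝ) / l :=
        div_le_div_of_nonneg_right (min_le_left _ _) hl0.le
      linarith
    · have e4 : Real.sin (Real.pi * ((h : ℝ) / l)) = Real.sin (Real.pi * (1 - (h : ℝ) / l)) := by
        rw [← Real.sin_pi_sub]
        congr 1
        ring
      rw [e4]
      refine le_trans ?_ ((key _ (by linarith) (by linarith)).trans (le_abs_self _))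
      have : min (h : ℝ) ((l : ℝ) - h) / l ≤ 1 - (h : ℝ) / l := by
        have e5 : 1 - (h : ℝ) / l = ((l : ℝ) - h) / l := by field_simp
        rw [e5]
        exact div_le_div_of_nonneg_right (min_le_right _ _) hl0.le
      linarith
  linarith

end Pool.Agent.UPI
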