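import Mathlib

/-!
The tail over the large primes: a sum of counts over the primes `K < l ≤ C' log N` is a small
part of `N`.
-/

set_option autoImplicit false

open Finset Filter

namespace Pool.Agent.UPI

theorem tendsto_log_nat : Tendsto (fun N : ℕ => Real.log (N : ℝ)) atTop atTop :=
  Real.tendsto_log_atTop.comp tendsto_natCast_atTop_atTop

theorem tail_primes (C' : ℝ) (hC' : 0 ≤ C') (δ : ℝ) (hδ : 0 < δ) :
    ∀ᶠ N : ℕ in atTop,
      (Nat.primeCounting ⌊C' * Real.log N⌋₊ : ℝ) ≤ δ * Real.log N := by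
  rcases hC'.eq_or_lt with rfl | hpos
  · filter_upwards with N
    have h0 : 0 ≤ Real.log (N : ℝ) := Real.log_natCast_nonneg N
    simpa using mul_nonneg hδ.le h0
  · have hx : Tendsto (fun N : ℕ => C' * Real.log (N : ℝ)) atTop atTop :=
      tendsto_log_nat.const_mul_atTop hpos
    have h1 := hx.eventually (Chebyshev.eventually_primeCounting_le one_pos)
    have h2 := (Real.tendsto_log_atTop.comp hx).eventually_ge_atTop
      ((Real.log 4 + 1) * C' / δ)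
    have h3 := (Real.tendsto_log_atTop.comp hx).eventually_gt_atTop 0
    filter_upwards [h1, h2, h3] with N h1 h2 h3
    simp only [Function.comp] at h2 h3
    have h0 : 0 ≤ Real.log (N : ℝ) := Real.log_natCast_nonneg N
    refine h1.trans ?_
    rw [div_le_iff₀ h3]
    rw [div_le_iff₀ hδ] at h2
    calc (Real.log 4 + 1) * (C' * Real.log N)
        = ((Real.log 4 + 1) * C') * Real.log N := by ring
      _ ≤ (Real.log (C' * Real.log N) * δ) * Real.log N := by gcongr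
      _ = δ * Real.log N * Real.log (C' * Real.log N) := by ring

theorem tail_small (C C' : ℝ) (hC : 0 ≤ C) (hC' : 0 ≤ C') (δ : ℝ) (hδ : 0 < δ) :
    ∀ᶠ N : ℕ in atTop,
      ((⌊C' * Real.log N⌋₊ : ℝ) + 1) * (C * (N : ℝ) ^ (2 / 3 : ℝ)) ≤ δ * N := by
  have hlo : (fun x : ℝ => Real.log x) =o[atTop] fun x : ℝ => x ^ (1 / 3 : ℝ) :=
    isLittleO_log_rpow_atTop (by norm_num)
  have hA : (0 : ℝ) < C * (C' + 1) + 1 := by positivity
  have h1 := hlo.bound (div_pos hδ hA)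
  have h2 := tendsto_natCast_atTop_atTop (R := ℝ) |>.eventually h1
  have h3 := tendsto_log_nat.eventually_ge_atTop 1
  filter_upwards [h2, h3, eventually_gt_atTop 0] with N h2 h3 hN
  have hN' : (0 : ℝ) < N := by exact_mod_cast hN
  rw [Real.norm_eq_abs, Real.norm_eq_abs, abs_of_nonneg (by linarith),
    abs_of_nonneg (by positivity)] at h2
  have hfl : (⌊C' * Real.log N⌋₊ : ℝ) ≤ C' * Real.log N := Nat.floor_le (by positivity)
  calc ((⌊C' * Real.log N⌋₊ : ℝ) + 1) * (C * (N : ℝ) ^ (2 / 3 : ℝ))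
      ≤ (C' * Real.log N + Real.log N) * (C * (N : ℝ) ^ (2 / 3 : ℝ)) := by gcongr
    _ = (C * (C' + 1)) * Real.log N * (N : ℝ) ^ (2 / 3 : ℝ) := by ring
    _ ≤ (C * (C' + 1) + 1) * (δ / (C * (C' + 1) + 1) * (N : ℝ) ^ (1 / 3 : ℝ)) *
        (N : ℝ) ^ (2 / 3 : ℝ) := by gcongr; linarith
    _ = δ * ((N : ℝ) ^ (1 / 3 : ℝ) * (N : ℝ) ^ (2 / 3 : ℝ)) := by
        field_simp
    _ = δ * N := by
        rw [← Real.rpow_add hN']
        norm_num

theorem tail (cnt : ℕ → ℕ → ℕ) (C C' : ℝ) (hC : 0 ≤ C) (hC' : 0 ≤ C')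
    (h : ∀ᶠ N : ℕ in atTop, ∀ l : ℕ, l.Prime →
      (cnt l N : ℝ) ≤ N * (C / l + C / √(Real.log N)) ^ 2 + C * (N : ℝ) ^ (2 / 3 : ℝ))
    (ε : ℝ) (hε : 0 < ε) :
    ∃ K : ℕ, ∀ᶠ N : ℕ in atTop,
      (∑ l ∈ (range (⌊C' * Real.log N⌋₊ + 1)).filter (fun l => l.Prime ∧ K < l),
        (cnt l N : ℝ)) ≤ ε * N := by
  obtain ⟨K, hK⟩ := exists_nat_gt (12 * C ^ 2 / ε)
  refine ⟨K, ?_⟩
  have hδ : 0 < ε / (6 * C ^ 2 + 1) := by positivity
  filter_upwards [h, tail_primes C' hC' _ hδ, tail_small C C' hC hC' (ε / 3) (by positivity),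
    tendsto_log_nat.eventually_ge_atTop 1] with N h h1 h2 h3
  set M : ℕ := ⌊C' * Real.log N⌋₊ with hM
  set F : Finset ℕ := (range (M + 1)).filter (fun l => l.Prime ∧ K < l) with hF
  have hL : (0 : ℝ) < Real.log N := by linarith
  have hs : (√(Real.log N)) ^ 2 = Real.log N := Real.sq_sqrt hL.le
  have hN0 : (0 : ℝ) ≤ N := Nat.cast_nonneg N
  have hterm : ∀ l ∈ F, (cnt l N : ℝ) ≤
      2 * C ^ 2 * N * ((l : ℝ) ^ 2)⁻¹ + 2 * C ^ 2 * N / Real.log N +
        C * (N : ℝ) ^ (2 / 3 : ℝ) := by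
    intro l hl
    have hp := (mem_filter.1 hl).2.1
    refine (h l hp).trans ?_
    have hsq : (C / l + C / √(Real.log N)) ^ 2 ≤
        2 * C ^ 2 * ((l : ℝ) ^ 2)⁻¹ + 2 * C ^ 2 / Real.log N := by
      have e1 : (C / l) ^ 2 = C ^ 2 * ((l : ℝ) ^ 2)⁻¹ := by rw [div_pow, div_eq_mul_inv]
      have e2 : (C / √(Real.log N)) ^ 2 = C ^ 2 / Real.log N := by rw [div_pow, hs]
      have := add_sq_le (R := ℝ) (a := C / l) (b := C / √(Real.log N))
      rw [e1, e2] at this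
      refine this.trans (le_of_eq ?_)
      ring
    have := mul_le_mul_of_nonneg_left hsq hN0
    have e3 : (N : ℝ) * (2 * C ^ 2 * ((l : ℝ) ^ 2)⁻¹ + 2 * C ^ 2 / Real.log N) =
      2 * C ^ 2 * N * ((l : ℝ) ^ 2)⁻¹ + 2 * C ^ 2 * N / Real.log N := by ring
    linarith
  have hinv : ∑ l ∈ F, ((l : ℝ) ^ 2)⁻¹ ≤ 2 / (K + 1) := by
    refine le_trans ?_ (sum_Ioo_inv_sq_le (α := ℝ) K (M + 1))
    refine sum_le_sum_of_subset_of_nonneg ?_ (fun i _ _ => by positivity)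
    intro l hl
    have := mem_filter.1 hl
    exact mem_Ioo.2 ⟨this.2.2, mem_range.1 this.1⟩
  have hcard : (F.card : ℝ) ≤ ε / (6 * C ^ 2 + 1) * Real.log N := by
    refine le_trans ?_ h1
    rw [Nat.primeCounting, Nat.primeCounting', Nat.count_eq_card_filter_range]
    exact_mod_cast card_le_card fun l hl => by
      have := mem_filter.1 hl
      exact mem_filter.2 ⟨this.1, this.2.1⟩
  have hcard2 : (F.card : ℝ) ≤ (M : ℝ) + 1 := by
    have : F.card ≤ M + 1 := (card_filter_le _ _).trans (card_range _).le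
    exact_mod_cast this
  have hpow : 0 ≤ C * (N : ℝ) ^ (2 / 3 : ℝ) := by positivity
  have hA : 2 * C ^ 2 * N * ∑ l ∈ F, ((l : ℝ) ^ 2)⁻¹ ≤ ε / 3 * N := by
    calc 2 * C ^ 2 * N * ∑ l ∈ F, ((l : ℝ) ^ 2)⁻¹
        ≤ 2 * C ^ 2 * N * (2 / (K + 1)) := by gcongr
      _ = (4 * C ^ 2 / (K + 1)) * N := by ring
      _ ≤ ε / 3 * N := by
          gcongr ?_ * _
          rw [div_lt_iff₀ hε] at hK
          rw [div_le_iff₀ (by positivity)]
          nlinarith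
  have hB : (F.card : ℝ) * (2 * C ^ 2 * N / Real.log N) ≤ ε / 3 * N := by
    calc (F.card : ℝ) * (2 * C ^ 2 * N / Real.log N)
        ≤ (ε / (6 * C ^ 2 + 1) * Real.log N) * (2 * C ^ 2 * N / Real.log N) := by gcongr
      _ = (ε * (2 * C ^ 2) / (6 * C ^ 2 + 1)) * N := by field_simp
      _ ≤ ε / 3 * N := by
          gcongr ?_ * _
          rw [div_le_iff₀ (by positivity)]
          nlinarith
  have hD : (F.card : ℝ) * (C * (N : ℝ) ^ (2 / 3 : ℝ)) ≤ ε / 3 * N :=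
    (mul_le_mul_of_nonneg_right hcard2 hpow).trans h2
  calc ∑ l ∈ F, (cnt l N : ℝ)
      ≤ ∑ l ∈ F, (2 * C ^ 2 * N * ((l : ℝ) ^ 2)⁻¹ + 2 * C ^ 2 * N / Real.log N +
        C * (N : ℝ) ^ (2 / 3 : ℝ)) := sum_le_sum hterm
    _ = 2 * C ^ 2 * N * ∑ l ∈ F, ((l : ℝ) ^ 2)⁻¹ + F.card * (2 * C ^ 2 * N / Real.log N) +
        F.card * (C * (N : ℝ) ^ (2 / 3 : ℝ)) := by
        rw [sum_add_distrib, sum_add_distrib, ← mul_sum, sum_const, sum_const, nsmul_eq_mul,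
          nsmul_eq_mul]
    _ ≤ ε / 3 * N + ε / 3 * N + ε / 3 * N := by linarith
    _ = ε * N := by ring

end Pool.Agent.UPI
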