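import Mathlib

set_option autoImplicit false

/-!
Almost all `a + 1` have two prime divisors in a suitable finite set of primes.
-/

namespace Pool.Agent.UPI

open Finset Filter

/-- the reciprocals of the primes diverge -/
theorem exists_primes (R : ℝ) :
    ∃ P : Finset ℕ, (∀ p ∈ P, p.Prime) ∧ R < ∑ p ∈ P, 1 / (p : ℝ) := by
  classical
  by_contra hcon
  push Not at hcon
  apply not_summable_one_div_on_primes
  refine summable_of_sum_le (c := R) ?_ ?_
  · intro n
    exact Set.indicator_nonneg (fun _ _ => by positivity) n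
  · intro u
    have h1 := hcon (u.filter Nat.Prime) (fun p hp => (mem_filter.1 hp).2)
    have h2 : ∑ x ∈ u, Set.indicator {p : ℕ | p.Prime} (fun n : ℕ => (1 : ℝ) / n) x =
        ∑ p ∈ u.filter Nat.Prime, (1 : ℝ) / p := by
      rw [sum_filter]
      refine sum_congr rfl fun x _ => ?_
      rw [Set.indicator_apply]
      rfl
    rw [h2]
    exact h1

/-- the number of the `a < N` with both `p ∣ a + 1` and `q ∣ a + 1` -/
theorem card_both_le {p q : ℕ} (hp : p.Prime) (hq : q.Prime) (N : ℕ) :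
    ((((range N).filter (fun a => p ∣ a + 1 ∧ q ∣ a + 1)).card : ℕ) : ℝ) ≤
      N * (1 / (p : ℝ) * (1 / (q : ℝ))) + (if p = q then N * (1 / (p : ℝ)) else 0) := by
  have hp0 : (0 : ℝ) < p := by exact_mod_cast hp.pos
  have hq0 : (0 : ℝ) < q := by exact_mod_cast hq.pos
  by_cases h : p = q
  · subst h
    rw [if_pos rfl]
    have e : (range N).filter (fun a => p ∣ a + 1 ∧ p ∣ a + 1) =
        (range N).filter (fun a => p ∣ a + 1) := by
      apply Finset.filter_congr
      intro a _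
      exact and_self_iff
    rw [e, Nat.card_multiples]
    have h1 : ((N / p : ℕ) : ℝ) ≤ (N : ℝ) / p := Nat.cast_div_le
    have h2 : (0 : ℝ) ≤ N * (1 / (p : ℝ) * (1 / (p : ℝ))) := by positivity
    have h3 : (N : ℝ) / p = N * (1 / (p : ℝ)) := by ring
    linarith
  · rw [if_neg h, add_zero]
    have e : (range N).filter (fun a => p ∣ a + 1 ∧ q ∣ a + 1) =
        (range N).filter (fun a => p * q ∣ a + 1) := by
      apply Finset.filter_congr
      intro a _
      constructor
      · rintro ⟨h1, h2⟩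
        exact Nat.Coprime.mul_dvd_of_dvd_of_dvd ((Nat.coprime_primes hp hq).mpr h) h1 h2
      · intro h1
        exact ⟨(dvd_mul_right p q).trans h1, (dvd_mul_left q p).trans h1⟩
    rw [e, Nat.card_multiples]
    have h1 : ((N / (p * q) : ℕ) : ℝ) ≤ (N : ℝ) / ((p * q : ℕ) : ℝ) := Nat.cast_div_le
    refine h1.trans (le_of_eq ?_)
    push_cast
    field_simp

theorem two (ε : ℝ) (hε : 0 < ε) : ∃ P : Finset ℕ, (∀ p ∈ P, p.Prime) ∧ ∀ᶠ N : ℕ in atTop,
    ((((range N).filter (fun a => (P.filter (fun p => p ∣ a + 1)).card ≤ 1)).card : ℕ) : ℝ) ≤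
      ε * N := by
  classical
  obtain ⟨P, hP, hμ⟩ := exists_primes (max 2 (8 / ε))
  refine ⟨P, hP, ?_⟩
  set μ : ℝ := ∑ p ∈ P, 1 / (p : ℝ) with hμdef
  have hμ2 : 2 < μ := lt_of_le_of_lt (le_max_left _ _) hμ
  have hμε : 8 / ε < μ := lt_of_le_of_lt (le_max_right _ _) hμ
  have hμ0 : 0 < μ := by linarith
  filter_upwards [eventually_ge_atTop ⌈8 * (P.card : ℝ) / ε⌉₊] with N hN
  have hN' : 8 * (P.card : ℝ) / ε ≤ N := Nat.ceil_le.mp hN
  rw [div_le_iff₀ hε] at hN'
  -- the number of divisors as a sum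
  set X : ℕ → ℝ := fun a => ∑ p ∈ P, (if p ∣ a + 1 then (1 : ℝ) else 0) with hX
  have hXcard : ∀ a, X a = (((P.filter (fun p => p ∣ a + 1)).card : ℕ) : ℝ) := by
    intro a
    rw [hX, Finset.card_filter]
    push_cast
    rfl
  have hsum1 : (N : ℝ) * μ - P.card ≤ ∑ a ∈ range N, X a := by
    have e1 : ∑ a ∈ range N, X a = ∑ p ∈ P, ((N / p : ℕ) : ℝ) := by
      rw [hX, Finset.sum_comm]
      apply Finset.sum_congr rfl
      intro p _
      rw [← Nat.card_multiples N p, Finset.card_filter]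
      push_cast
      rfl
    rw [e1, hμdef, Finset.mul_sum]
    have e2 : ∑ p ∈ P, (N : ℝ) * (1 / (p : ℝ)) - P.card =
        ∑ p ∈ P, ((N : ℝ) * (1 / (p : ℝ)) - 1) := by
      rw [Finset.sum_sub_distrib]
      simp
    rw [e2]
    apply Finset.sum_le_sum
    intro p hp
    have hp0 : (0 : ℝ) < p := by exact_mod_cast (hP p hp).pos
    have h1 : N < (N / p + 1) * p := by
      have := Nat.lt_div_mul_add (a := N) (hP p hp).pos
      nlinarith
    have h2 : (N : ℝ) < (((N / p : ℕ) : ℝ) + 1) * p := by exact_mod_cast h1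
    have h3 : (N : ℝ) / p < ((N / p : ℕ) : ℝ) + 1 := by
      rw [div_lt_iff₀ hp0]
      exact h2
    have h4 : (N : ℝ) / p = N * (1 / (p : ℝ)) := by ring
    linarith
  have hsum2 : ∑ a ∈ range N, X a ^ 2 ≤ N * μ ^ 2 + N * μ := by
    have e1 : ∑ a ∈ range N, X a ^ 2 = ∑ p ∈ P, ∑ q ∈ P,
        ((((range N).filter (fun a => p ∣ a + 1 ∧ q ∣ a + 1)).card : ℕ) : ℝ) := by
      have h1 : ∀ a ∈ range N, X a ^ 2 = ∑ p ∈ P, ∑ q ∈ P,
          (if p ∣ a + 1 ∧ q ∣ a + 1 then (1 : ℝ) else 0) := by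
        intro a _
        rw [sq, hX, Finset.sum_mul_sum]
        apply Finset.sum_congr rfl
        intro p _
        apply Finset.sum_congr rfl
        intro q _
        by_cases h1 : p ∣ a + 1 <;> by_cases h2 : q ∣ a + 1 <;> simp [h1, h2]
      rw [Finset.sum_congr rfl h1, Finset.sum_comm]
      apply Finset.sum_congr rfl
      intro p _
      rw [Finset.sum_comm]
      apply Finset.sum_congr rfl
      intro q _
      rw [Finset.card_filter]
      push_cast
      rfl
    rw [e1]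
    have h2 : ∑ p ∈ P, ∑ q ∈ P,
        ((((range N).filter (fun a => p ∣ a + 1 ∧ q ∣ a + 1)).card : ℕ) : ℝ) ≤
        ∑ p ∈ P, ∑ q ∈ P, (N * (1 / (p : ℝ) * (1 / (q : ℝ))) +
          (if p = q then N * (1 / (p : ℝ)) else 0)) :=
      Finset.sum_le_sum fun p hp => Finset.sum_le_sum fun q hq =>
        card_both_le (hP p hp) (hP q hq) N
    refine h2.trans (le_of_eq ?_)
    have h3 : ∀ p ∈ P, ∑ q ∈ P, (N * (1 / (p : ℝ) * (1 / (q : ℝ))) +
        (if p = q then N * (1 / (p : ℝ)) else 0)) = N * (1 / (p : ℝ)) * μ + N * (1 / (p : ℝ)) := by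
      intro p hp
      rw [Finset.sum_add_distrib, Finset.sum_ite_eq, if_pos hp, hμdef, Finset.mul_sum]
      congr 1
      apply Finset.sum_congr rfl
      intro q _
      ring
    rw [Finset.sum_congr rfl h3, Finset.sum_add_distrib, ← Finset.sum_mul, ← Finset.mul_sum,
      ← hμdef]
    ring
  -- the variance
  have hvar : ∑ a ∈ range N, (X a - μ) ^ 2 ≤ N * μ + 2 * μ * P.card := by
    have e : ∑ a ∈ range N, (X a - μ) ^ 2 =
        ∑ a ∈ range N, X a ^ 2 - 2 * μ * ∑ a ∈ range N, X a + N * μ ^ 2 := by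
      rw [Finset.mul_sum, ← Finset.sum_sub_distrib]
      have h8 : (N : ℝ) * μ ^ 2 = ∑ _n ∈ range N, μ ^ 2 := by simp
      rw [h8, ← Finset.sum_add_distrib]
      exact Finset.sum_congr rfl fun n _ => by ring
    rw [e]
    have := mul_le_mul_of_nonneg_left hsum1 (show (0 : ℝ) ≤ 2 * μ by linarith)
    nlinarith
  -- the exceptional set
  set B := (range N).filter (fun a => (P.filter (fun p => p ∣ a + 1)).card ≤ 1) with hB
  have hBX : (B.card : ℝ) * (μ ^ 2 / 4) ≤ ∑ a ∈ range N, (X a - μ) ^ 2 := by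
    calc (B.card : ℝ) * (μ ^ 2 / 4) = ∑ _a ∈ B, μ ^ 2 / 4 := by
          rw [Finset.sum_const, nsmul_eq_mul]
      _ ≤ ∑ a ∈ B, (X a - μ) ^ 2 := by
          apply Finset.sum_le_sum
          intro a ha
          rw [hB, Finset.mem_filter] at ha
          have h1 : X a ≤ 1 := by
            rw [hXcard]
            exact_mod_cast ha.2
          nlinarith
      _ ≤ ∑ a ∈ range N, (X a - μ) ^ 2 := by
          apply Finset.sum_le_sum_of_subset_of_nonneg (Finset.filter_subset _ _)
          intro a _ _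
          positivity
  have h1 : (B.card : ℝ) * (μ ^ 2 / 4) ≤ N * μ + 2 * μ * P.card := hBX.trans hvar
  have h2 : (B.card : ℝ) * μ ≤ 4 * N + 8 * P.card := by
    have h3 : μ * ((B.card : ℝ) * μ) ≤ μ * (4 * N + 8 * P.card) := by nlinarith
    exact le_of_mul_le_mul_left h3 hμ0
  -- conclusion
  have h4 : 8 < μ * ε := by
    rw [div_lt_iff₀ hε] at hμε
    exact hμε
  have h5 : (B.card : ℝ) * 8 ≤ (B.card : ℝ) * (μ * ε) :=
    mul_le_mul_of_nonneg_left h4.le (Nat.cast_nonneg _)
  have h6 : (B.card : ℝ) * μ * ε ≤ (4 * N + 8 * P.card) * ε :=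
    mul_le_mul_of_nonneg_right h2 hε.le
  -- `8 |P| ≤ ε N` and `|P| ε ≤ ...`
  have hPc : (0 : ℝ) ≤ P.card := Nat.cast_nonneg _
  have hNn : (0 : ℝ) ≤ N := Nat.cast_nonneg _
  by_cases hε1 : ε ≤ 4
  · have h7 : 8 * (P.card : ℝ) * ε ≤ N * ε * ε := by nlinarith
    have h8 : N * ε * ε ≤ 4 * (N * ε) := by nlinarith [mul_nonneg hNn hε.le]
    nlinarith
  · push Not at hε1
    have h7 : (B.card : ℝ) ≤ N := by
      have : B.card ≤ N := by
        have := Finset.card_filter_le (range N)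
          (fun a => (P.filter (fun p => p ∣ a + 1)).card ≤ 1)
        rw [Finset.card_range] at this
        exact this
      exact_mod_cast this
    nlinarith

end Pool.Agent.UPI
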