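import Pool.Agent.H31LI.Means

/-!
# `(p - 1) v_p(a!) = (q - 1) v_q(a!)` has density zero, for different primes `p` and `q`
-/

namespace Pool.Agent.UPI

open Finset Filter Topology H31LI

theorem ind_two {p q l : ℕ} (hl : l ≠ 0) (n : ℕ) :
    (if l ∣ (p - 1) * padicValNat p n.factorial +
        (l - 1) * ((q - 1) * padicValNat q n.factorial) then (1 : ℂ) else 0) =
      (l : ℂ)⁻¹ * ei 1 n + ∑ b ∈ Ico 1 l, (l : ℂ)⁻¹ * (Fv p (rt l ^ (b * (p - 1))) n *
        Fv q (rt l ^ (b * ((l - 1) * (q - 1)))) n) := by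
  have h1 : ei 1 n = 1 := by simp [ei]
  rw [ind_eq hl, range_eq_Ico, sum_eq_sum_Ico_succ_bot (by omega), mul_add, mul_sum, h1]
  simp only [pow_zero, one_pow, mul_one, zero_add, Fv]
  congr 1
  refine sum_congr rfl fun b _ => ?_
  congr 1
  rw [← pow_mul, ← pow_mul, ← pow_mul, ← pow_add]
  congr 1
  ring

theorem mean_two {p q l : ℕ} (hp : p.Prime) (hq : q.Prime) (hpq : p ≠ q) (hl : l.Prime)
    (hlp : p < l) :
    MeanTo (fun n => if l ∣ (p - 1) * padicValNat p n.factorial +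
        (l - 1) * ((q - 1) * padicValNat q n.factorial) then (1 : ℂ) else 0) (l : ℂ)⁻¹ := by
  have h : Null (fun n => ∑ b ∈ Ico 1 l, (l : ℂ)⁻¹ * (Fv p (rt l ^ (b * (p - 1))) n *
        Fv q (rt l ^ (b * ((l - 1) * (q - 1)))) n)) := by
    refine Null.sum _ fun b hb => (null_Fv_mul hq hp hpq.symm ?_ ?_ ?_).const_mul _
    · rw [norm_pow, norm_rt hl.ne_zero, one_pow]
    · intro hc
      rw [(rt_prim hl.ne_zero).pow_eq_one_iff_dvd] at hc
      rw [mem_Ico] at hb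
      rcases (Nat.Prime.dvd_mul hl).1 hc with h1 | h1
      · exact absurd (Nat.le_of_dvd (by omega) h1) (by omega)
      · have := hp.two_le
        exact absurd (Nat.le_of_dvd (by omega) h1) (by omega)
    · rw [norm_pow, norm_rt hl.ne_zero, one_pow]
  have h1 := ((mean_ei one_ne_zero).const_mul (l : ℂ)⁻¹).add h.mean
  have h2 : (l : ℂ)⁻¹ * ((1 : ℕ) : ℂ)⁻¹ + 0 = (l : ℂ)⁻¹ := by simp
  rw [h2] at h1
  exact h1.congr fun n => (ind_two hl.ne_zero n).symm

/-- `(p - 1) v_p(a!) = (q - 1) v_q(a!)` has density zero -/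
theorem zer {p q : ℕ} (hp : p.Prime) (hq : q.Prime) (hpq : p ≠ q) (ε : ℝ) (hε : 0 < ε) :
    ∀ᶠ N : ℕ in atTop, ((((range N).filter (fun a =>
      (p - 1) * padicValNat p a.factorial = (q - 1) * padicValNat q a.factorial)).card : ℕ) : ℝ) ≤
        ε * N := by
  obtain ⟨l, hl1, hl⟩ := Nat.exists_infinite_primes (p + 1 + (Nat.ceil (2 / ε)))
  have hl0 : (0 : ℝ) < l := by exact_mod_cast hl.pos
  have hl2 : 2 / ε ≤ l := (Nat.le_ceil _).trans (by exact_mod_cast (by omega : Nat.ceil (2 / ε) ≤ l))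
  have hl3 : (l : ℝ)⁻¹ < ε := by
    rw [div_le_iff₀ hε] at hl2
    rw [inv_lt_iff_one_lt_mul₀ hl0]
    linarith
  have h := mean_two hp hq hpq hl (by omega)
  have h1 : Tendsto (fun N : ℕ => (∑ n ∈ range N, (if l ∣ (p - 1) * padicValNat p n.factorial +
        (l - 1) * ((q - 1) * padicValNat q n.factorial) then (1 : ℝ) else 0)) / (N : ℝ)) atTop
        (𝓝 (l : ℝ)⁻¹) := by
    apply real_mean
    have h2 : (((l : ℝ)⁻¹ : ℝ) : ℂ) = (l : ℂ)⁻¹ := by push_cast; rfl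
    rw [h2]
    refine h.congr fun n => ?_
    split_ifs <;> simp
  filter_upwards [h1.eventually_lt_const hl3, eventually_gt_atTop 0] with N hN hN0
  have hN0' : (0 : ℝ) < N := by exact_mod_cast hN0
  rw [div_lt_iff₀ hN0'] at hN
  refine le_trans ?_ hN.le
  rw [← sum_filter, sum_const, nsmul_eq_mul, mul_one]
  refine Nat.cast_le.2 (card_le_card fun a ha => ?_)
  rw [mem_filter] at ha ⊢
  refine ⟨ha.1, ?_⟩
  rw [ha.2]
  refine ⟨(q - 1) * padicValNat q a.factorial, ?_⟩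
  obtain ⟨m, rfl⟩ : ∃ m, l = m + 1 := ⟨l - 1, by have := hl.pos; omega⟩
  simp only [Nat.add_sub_cancel]
  ring

end Pool.Agent.UPI
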