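import Pool.Agent.H31LI.Final
import Pool.Agent.UPI.Two
import Pool.Agent.UPI.Zer
import Pool.Agent.UPI.Tail
import Pool.Agent.UPI.Cnt

set_option autoImplicit false

/-!
For almost all `a` no sum of distinct factorials with the least term `a!` is a perfect power.
-/

namespace Pool.Agent.UPI

open Finset Filter Topology

/-- the least indices of the sums which are perfect powers -/
def PossAll : Set ℕ :=
  {a | ∃ S : Finset ℕ, a ∈ S ∧ (∀ i ∈ S, a ≤ i) ∧
    ∃ k : ℕ, 2 ≤ k ∧ ∃ m : ℕ, ∑ i ∈ S, i.factorial = m ^ k}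

theorem exists_prime_poss {a : ℕ} (h : a ∈ PossAll) : ∃ l : ℕ, l.Prime ∧ a ∈ H31LI.Poss l := by
  obtain ⟨S, ha, hmin, k, hk, m, hm⟩ := h
  obtain ⟨c, hc⟩ := Nat.minFac_dvd k
  refine ⟨k.minFac, Nat.minFac_prime (by omega), S, ha, hmin, m ^ c, ?_⟩
  rw [hm, ← pow_mul, mul_comm c, ← hc]

theorem dvd_val {l a p : ℕ} (hl : l.Prime) (h : a ∈ H31LI.Poss l) (hp : p.Prime)
    (hpa : p ∣ a + 1) : l ∣ padicValNat p a.factorial := by
  have h1 := H31LI.Xr_eq_zero hl.two_le h hp
  by_contra h2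
  rw [H31LI.Xr, if_pos ⟨hpa, h2⟩] at h1
  norm_num at h1

theorem fin_digsum_le {p a N : ℕ} (hp : 2 ≤ p) (ha : a < N) (hN : 3 ≤ N) :
    ((Nat.digits p a).sum : ℝ) ≤ 3 * p * Real.log N := by
  have hNr : (3 : ℝ) ≤ N := by exact_mod_cast hN
  have hlog : 1 ≤ Real.log N := by
    rw [Real.le_log_iff_exp_le (by linarith)]
    have := Real.exp_one_lt_d9
    linarith
  have hp0 : (0 : ℝ) ≤ p := Nat.cast_nonneg p
  rcases Nat.eq_zero_or_pos a with rfl | ha0
  · simp only [Nat.digits_zero, List.sum_nil, Nat.cast_zero]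
    positivity
  · have h1 : (Nat.digits p a).sum ≤ (Nat.digits p a).length • p := by
      apply List.sum_le_card_nsmul
      intro x hx
      exact (Nat.digits_lt_base (by omega) hx).le
    rw [Nat.length_digits p a (by omega) (by omega), smul_eq_mul] at h1
    have h2 : Nat.log p a ≤ Nat.log 2 a := Nat.log_anti_left (by norm_num) hp
    have h3 : (2 : ℝ) ^ (Nat.log 2 a) ≤ N := by
      have h4 : 2 ^ (Nat.log 2 a) ≤ a := Nat.pow_log_le_self 2 (by omega)
      exact_mod_cast h4.trans ha.le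
    have h5 : (Nat.log 2 a : ℝ) * Real.log 2 ≤ Real.log N := by
      rw [← Real.log_pow]
      exact Real.log_le_log (by positivity) h3
    have h6 := Real.log_two_gt_d9
    have h7 : (Nat.log 2 a : ℝ) ≤ 2 * Real.log N := by
      have h8 : (0 : ℝ) ≤ (Nat.log 2 a : ℝ) := Nat.cast_nonneg _
      nlinarith
    have h9 : (((Nat.digits p a).sum : ℕ) : ℝ) ≤ ((Nat.log p a + 1 : ℕ) : ℝ) * p := by
      exact_mod_cast h1
    have h10 : ((Nat.log p a + 1 : ℕ) : ℝ) ≤ 3 * Real.log N := by
      have h11 : ((Nat.log p a : ℕ) : ℝ) ≤ ((Nat.log 2 a : ℕ) : ℝ) := by exact_mod_cast h2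
      push_cast
      linarith
    calc (((Nat.digits p a).sum : ℕ) : ℝ) ≤ ((Nat.log p a + 1 : ℕ) : ℝ) * p := h9
      _ ≤ 3 * Real.log N * p := mul_le_mul_of_nonneg_right h10 hp0
      _ = 3 * p * Real.log N := by ring

theorem l_le {p q l a N : ℕ} (hp : p.Prime) (hq : q.Prime) (ha : a < N) (hN : 3 ≤ N)
    (h1 : l ∣ padicValNat p a.factorial) (h2 : l ∣ padicValNat q a.factorial)
    (hD : (p - 1) * padicValNat p a.factorial ≠ (q - 1) * padicValNat q a.factorial) :
    (l : ℝ) ≤ 3 * ((p : ℝ) + q) * Real.log N := by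
  have : Fact p.Prime := ⟨hp⟩
  have : Fact q.Prime := ⟨hq⟩
  have ep := sub_one_mul_padicValNat_factorial (p := p) a
  have eq := sub_one_mul_padicValNat_factorial (p := q) a
  have hlp : l ∣ (p - 1) * padicValNat p a.factorial := Dvd.dvd.mul_left h1 _
  have hlq : l ∣ (q - 1) * padicValNat q a.factorial := Dvd.dvd.mul_left h2 _
  have hsp := fin_digsum_le hp.two_le ha hN
  have hsq := fin_digsum_le hq.two_le ha hN
  have key : l ≤ (Nat.digits p a).sum + (Nat.digits q a).sum := by
    rcases Nat.lt_or_gt_of_ne hD with h | h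
    · have h3 : l ∣ (q - 1) * padicValNat q a.factorial - (p - 1) * padicValNat p a.factorial :=
        Nat.dvd_sub hlq hlp
      have h4 := Nat.le_of_dvd (by omega) h3
      rw [ep, eq] at h4
      omega
    · have h3 : l ∣ (p - 1) * padicValNat p a.factorial - (q - 1) * padicValNat q a.factorial :=
        Nat.dvd_sub hlp hlq
      have h4 := Nat.le_of_dvd (by omega) h3
      rw [ep, eq] at h4
      omega
  have key' : (l : ℝ) ≤ (Nat.digits p a).sum + (Nat.digits q a).sum := by exact_mod_cast key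
  calc (l : ℝ) ≤ _ := key'
    _ ≤ 3 * p * Real.log N + 3 * q * Real.log N := add_le_add hsp hsq
    _ = 3 * ((p : ℝ) + q) * Real.log N := by ring

open Classical in
theorem natCard_eq (s : Set ℕ) (N : ℕ) :
    Nat.card {a : ℕ | a < N ∧ a ∈ s} = ((range N).filter (fun a => a ∈ s)).card := by
  have e : {a : ℕ | a < N ∧ a ∈ s} = ((((range N).filter (fun a => a ∈ s)) : Finset ℕ) : Set ℕ) := by
    ext a
    simp
  rw [Nat.card_coe_set_eq, e, Set.ncard_coe_finset]

/-- the number of the `a < N` such that `l` divides both valuations -/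
def cnt (p q l N : ℕ) : ℕ :=
  ((range N).filter fun a => l ∣ padicValNat p a.factorial ∧ l ∣ padicValNat q a.factorial).card

theorem pair_tail {p q : ℕ} (hp : p.Prime) (hq : q.Prime) (hpq : p ≠ q) (ε : ℝ) (hε : 0 < ε) :
    ∃ K : ℕ, ∀ᶠ N : ℕ in atTop,
      (∑ l ∈ (range (⌊3 * ((p : ℝ) + q) * Real.log N⌋₊ + 1)).filter (fun l => l.Prime ∧ K < l),
        (cnt p q l N : ℝ)) ≤ ε * N := by
  obtain ⟨C, hC, h⟩ := count_bound hp hq hpq
  exact tail (cnt p q) C (3 * ((p : ℝ) + q)) hC (by positivity) h ε hε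

theorem main : Tendsto (fun N : ℕ => (Nat.card {a : ℕ | a < N ∧ a ∈ PossAll} : ℝ) / N)
    atTop (𝓝 0) := by
  classical
  rw [Metric.tendsto_atTop]
  intro ε hε
  obtain ⟨P, hP, htwo⟩ := two (ε / 8) (by positivity)
  set Q := P.offDiag with hQ
  have hQ' : ∀ x ∈ Q, x.1.Prime ∧ x.2.Prime ∧ x.1 ≠ x.2 := by
    intro x hx
    rw [hQ, Finset.mem_offDiag] at hx
    exact ⟨hP _ hx.1, hP _ hx.2.1, hx.2.2⟩
  set c : ℝ := (Q.card : ℝ) + 1 with hc
  have hc0 : 0 < c := by positivity
  have hzer : ∀ᶠ N : ℕ in atTop, ∀ x ∈ Q,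
      ((((range N).filter (fun a => (x.1 - 1) * padicValNat x.1 a.factorial =
        (x.2 - 1) * padicValNat x.2 a.factorial)).card : ℕ) : ℝ) ≤ ε / (8 * c) * N := by
    rw [Filter.eventually_all_finset]
    intro x hx
    obtain ⟨h1, h2, h3⟩ := hQ' x hx
    exact zer h1 h2 h3 _ (by positivity)
  have htail : ∀ x ∈ Q, ∃ K : ℕ, ∀ᶠ N : ℕ in atTop,
      (∑ l ∈ (range (⌊3 * ((x.1 : ℝ) + x.2) * Real.log N⌋₊ + 1)).filter
        (fun l => l.Prime ∧ K < l), (cnt x.1 x.2 l N : ℝ)) ≤ ε / (8 * c) * N := by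
    intro x hx
    obtain ⟨h1, h2, h3⟩ := hQ' x hx
    exact pair_tail h1 h2 h3 _ (by positivity)
  choose! K hK using htail
  have hK' : ∀ᶠ N : ℕ in atTop, ∀ x ∈ Q,
      (∑ l ∈ (range (⌊3 * ((x.1 : ℝ) + x.2) * Real.log N⌋₊ + 1)).filter
        (fun l => l.Prime ∧ K x < l), (cnt x.1 x.2 l N : ℝ)) ≤ ε / (8 * c) * N := by
    rw [Filter.eventually_all_finset]
    exact hK
  set Km := Q.sup K with hKm
  set L := (range (Km + 1)).filter Nat.Prime with hL
  have hL' : ∀ l ∈ L, l.Prime := fun l hl => (mem_filter.mp hl).2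
  set d : ℝ := (L.card : ℝ) + 1 with hd
  have hd0 : 0 < d := by positivity
  have hsmall : ∀ᶠ N : ℕ in atTop, ∀ l ∈ L,
      ((((range N).filter (fun a => a ∈ H31LI.Poss l)).card : ℕ) : ℝ) ≤ ε / (8 * d) * N := by
    rw [Filter.eventually_all_finset]
    intro l hl
    have h1 := H31LI.main l (hL' l hl).two_le
    have h2 : ∀ᶠ N : ℕ in atTop, (Nat.card {a : ℕ | a < N ∧ a ∈ H31LI.Poss l} : ℝ) / N <
        ε / (8 * d) := h1.eventually_lt_const (by positivity)
    filter_upwards [h2, eventually_ge_atTop 1] with N hN hN1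
    have hN0 : (0 : ℝ) < N := by
      have : 0 < N := hN1
      exact_mod_cast this
    rw [div_lt_iff₀ hN0, natCard_eq] at hN
    exact hN.le
  have hall := htwo.and (hzer.and (hK'.and (hsmall.and (eventually_ge_atTop 3))))
  obtain ⟨N₀, hN₀⟩ := eventually_atTop.mp hall
  refine ⟨N₀, fun N hN => ?_⟩
  obtain ⟨h1, h2, h3, h4, hN3⟩ := hN₀ N hN
  have hNr : (3 : ℝ) ≤ N := by exact_mod_cast hN3
  have hN0 : (0 : ℝ) < N := by linarith
  have hlogN : 0 < Real.log N := Real.log_pos (by linarith)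
  -- the covering
  set B1 := (range N).filter (fun a => (P.filter (fun p => p ∣ a + 1)).card ≤ 1) with hB1
  set B2 := L.biUnion (fun l => (range N).filter (fun a => a ∈ H31LI.Poss l)) with hB2
  set Z : ℕ × ℕ → Finset ℕ := fun x => (range N).filter (fun a =>
    (x.1 - 1) * padicValNat x.1 a.factorial = (x.2 - 1) * padicValNat x.2 a.factorial) with hZ
  set I : ℕ × ℕ → Finset ℕ := fun x =>
    (range (⌊3 * ((x.1 : ℝ) + x.2) * Real.log N⌋₊ + 1)).filter (fun l => l.Prime ∧ K x < l) with hI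
  set W : ℕ × ℕ → Finset ℕ := fun x => (I x).biUnion (fun l => (range N).filter
    (fun a => l ∣ padicValNat x.1 a.factorial ∧ l ∣ padicValNat x.2 a.factorial)) with hW
  set B3 := Q.biUnion (fun x => Z x ∪ W x) with hB3
  have hcover : (range N).filter (fun a => a ∈ PossAll) ⊆ B1 ∪ (B2 ∪ B3) := by
    intro a ha
    rw [mem_filter, mem_range] at ha
    obtain ⟨haN, hpos⟩ := ha
    rw [mem_union, mem_union]
    by_cases hb1 : (P.filter (fun p => p ∣ a + 1)).card ≤ 1
    · left
      rw [hB1, mem_filter, mem_range]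
      exact ⟨haN, hb1⟩
    · right
      push Not at hb1
      obtain ⟨p, hp, q, hq, hpq⟩ := Finset.one_lt_card.mp hb1
      rw [mem_filter] at hp hq
      obtain ⟨l, hl, hposs⟩ := exists_prime_poss hpos
      have hlp := dvd_val hl hposs (hP p hp.1) hp.2
      have hlq := dvd_val hl hposs (hP q hq.1) hq.2
      by_cases hlK : l ≤ Km
      · left
        rw [hB2, mem_biUnion]
        refine ⟨l, ?_, ?_⟩
        · rw [hL, mem_filter, mem_range]
          exact ⟨by omega, hl⟩
        · rw [mem_filter, mem_range]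
          exact ⟨haN, hposs⟩
      · right
        push Not at hlK
        have hxQ : (p, q) ∈ Q := by
          rw [hQ, mem_offDiag]
          exact ⟨hp.1, hq.1, hpq⟩
        rw [hB3, mem_biUnion]
        refine ⟨(p, q), hxQ, ?_⟩
        rw [mem_union]
        by_cases hD : (p - 1) * padicValNat p a.factorial = (q - 1) * padicValNat q a.factorial
        · left
          rw [hZ]
          simp only [mem_filter, mem_range]
          exact ⟨haN, hD⟩
        · right
          have hle := l_le (hP p hp.1) (hP q hq.1) haN hN3 hlp hlq hD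
          rw [hW]
          simp only [mem_biUnion, mem_filter, mem_range]
          refine ⟨l, ?_, haN, hlp, hlq⟩
          rw [hI]
          simp only [mem_filter, mem_range]
          refine ⟨?_, hl, ?_⟩
          · have := Nat.le_floor hle
            omega
          · exact lt_of_le_of_lt (Finset.le_sup (f := K) hxQ) hlK
  -- the sizes
  have hB2c : (B2.card : ℝ) ≤ ε / 8 * N := by
    have e1 : (B2.card : ℝ) ≤ ∑ l ∈ L,
        ((((range N).filter (fun a => a ∈ H31LI.Poss l)).card : ℕ) : ℝ) := by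
      have := Finset.card_biUnion_le (s := L)
        (t := fun l => (range N).filter (fun a => a ∈ H31LI.Poss l))
      exact_mod_cast this
    have e2 : ∑ l ∈ L, ((((range N).filter (fun a => a ∈ H31LI.Poss l)).card : ℕ) : ℝ) ≤
        ∑ _l ∈ L, ε / (8 * d) * N := Finset.sum_le_sum h4
    rw [Finset.sum_const, nsmul_eq_mul] at e2
    have e3 : (L.card : ℝ) * (ε / (8 * d) * N) ≤ d * (ε / (8 * d) * N) := by
      apply mul_le_mul_of_nonneg_right _ (by positivity)
      rw [hd]
      linarith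
    have e4 : d * (ε / (8 * d) * N) = ε / 8 * N := by
      field_simp
    linarith
  have hB3c : (B3.card : ℝ) ≤ ε / 4 * N := by
    have e1 : (B3.card : ℝ) ≤ ∑ x ∈ Q, (((Z x ∪ W x).card : ℕ) : ℝ) := by
      have := Finset.card_biUnion_le (s := Q) (t := fun x => Z x ∪ W x)
      exact_mod_cast this
    have e2 : ∀ x ∈ Q, (((Z x ∪ W x).card : ℕ) : ℝ) ≤ ε / (8 * c) * N + ε / (8 * c) * N := by
      intro x hx
      have e5 : (((Z x ∪ W x).card : ℕ) : ℝ) ≤ ((Z x).card : ℝ) + ((W x).card : ℝ) := by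
        exact_mod_cast Finset.card_union_le (Z x) (W x)
      have e6 : ((Z x).card : ℝ) ≤ ε / (8 * c) * N := h2 x hx
      have e7 : ((W x).card : ℝ) ≤ ∑ l ∈ I x, (cnt x.1 x.2 l N : ℝ) := by
        have := Finset.card_biUnion_le (s := I x) (t := fun l => (range N).filter
          (fun a => l ∣ padicValNat x.1 a.factorial ∧ l ∣ padicValNat x.2 a.factorial))
        exact_mod_cast this
      have e8 := h3 x hx
      linarith
    have e3 : ∑ x ∈ Q, (((Z x ∪ W x).card : ℕ) : ℝ) ≤
        ∑ _x ∈ Q, (ε / (8 * c) * N + ε / (8 * c) * N) := Finset.sum_le_sum e2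
    rw [Finset.sum_const, nsmul_eq_mul] at e3
    have e4 : (Q.card : ℝ) * (ε / (8 * c) * N + ε / (8 * c) * N) ≤
        c * (ε / (8 * c) * N + ε / (8 * c) * N) := by
      apply mul_le_mul_of_nonneg_right _ (by positivity)
      rw [hc]
      linarith
    have e9 : c * (ε / (8 * c) * N + ε / (8 * c) * N) = ε / 4 * N := by
      field_simp
      ring
    linarith
  have hcard : (((range N).filter (fun a => a ∈ PossAll)).card : ℝ) ≤ ε / 2 * N := by
    have e1 : (((range N).filter (fun a => a ∈ PossAll)).card : ℝ) ≤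
        (B1.card : ℝ) + ((B2.card : ℝ) + (B3.card : ℝ)) := by
      have := (Finset.card_le_card hcover).trans
        ((Finset.card_union_le _ _).trans (Nat.add_le_add_left (Finset.card_union_le _ _) _))
      exact_mod_cast this
    have e2 : (B1.card : ℝ) ≤ ε / 8 * N := h1
    linarith
  rw [Real.dist_eq, sub_zero, natCard_eq, abs_of_nonneg (by positivity), div_lt_iff₀ hN0]
  have : ε / 2 * N < ε * N := by
    have := mul_pos hε hN0
    linarith
  linarith

end Pool.Agent.UPI
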