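import Pool.Agent.H31LI.Decay

/-! Quantitative decay of the sums of a digital function over the blocks. -/

set_option autoImplicit false

namespace UPI

open Finset H31LI

theorem norm_one_add_le {y : ℂ} (hy : ‖y‖ = 1) : ‖1 + y‖ ≤ 2 - ‖1 - y‖ ^ 2 / 4 := by
  have h4 : y.re * y.re + y.im * y.im = 1 := by
    rw [← Complex.normSq_apply, Complex.normSq_eq_norm_sq, hy]; norm_num
  have hp : ‖1 + y‖ ^ 2 = 2 + 2 * y.re := by
    rw [← Complex.normSq_eq_norm_sq, Complex.normSq_apply]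
    simp only [Complex.add_re, Complex.one_re, Complex.add_im, Complex.one_im]
    nlinarith
  have hm : ‖1 - y‖ ^ 2 = 2 - 2 * y.re := by
    rw [← Complex.normSq_eq_norm_sq, Complex.normSq_apply]
    simp only [Complex.sub_re, Complex.one_re, Complex.sub_im, Complex.one_im]
    nlinarith
  have h0 : 0 ≤ ‖1 + y‖ := norm_nonneg _
  have hle : ‖1 - y‖ ^ 2 ≤ 4 := by
    have : 0 ≤ ‖1 + y‖ ^ 2 := sq_nonneg _
    linarith
  refine abs_le_of_sq_le_sq' ?_ (by linarith) |>.2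
  nlinarith [sq_nonneg (‖1 - y‖ ^ 2)]

theorem norm_phi_quant {q : ℕ} (hq : 2 ≤ q) {y : ℂ} (hy : ‖y‖ = 1) :
    ‖phi q y‖ ≤ 1 - ‖1 - y‖ ^ 2 / (4 * q) := by
  have hq0 : (0 : ℝ) < q := by positivity
  obtain ⟨m, rfl⟩ : ∃ m, q = 2 + m := ⟨q - 2, by omega⟩
  have h3 : ‖∑ d ∈ range (2 + m), y ^ d‖ ≤ ((2 + m : ℕ) : ℝ) - ‖1 - y‖ ^ 2 / 4 := by
    rw [sum_range_add]
    have h4 : ∑ d ∈ range 2, y ^ d = 1 + y := by simp [sum_range_succ]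
    rw [h4]
    have h5 : ‖∑ x ∈ range m, y ^ (2 + x)‖ ≤ m := by
      refine (norm_sum_le _ _).trans ?_
      simp [hy]
    have h6 := norm_one_add_le hy
    push_cast
    calc ‖1 + y + ∑ x ∈ range m, y ^ (2 + x)‖ ≤ ‖1 + y‖ + ‖∑ x ∈ range m, y ^ (2 + x)‖ :=
          norm_add_le _ _
      _ ≤ 2 + m - ‖1 - y‖ ^ 2 / 4 := by linarith
  rw [phi, norm_mul, norm_inv, Complex.norm_natCast, inv_mul_le_iff₀ hq0]
  have h7 : ((2 + m : ℕ) : ℝ) * (1 - ‖1 - y‖ ^ 2 / (4 * ((2 + m : ℕ) : ℝ))) =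
      ((2 + m : ℕ) : ℝ) - ‖1 - y‖ ^ 2 / 4 := by
    field_simp
  rw [h7]
  exact h3

theorem norm_one_sub_pow_le {y : ℂ} (hy : ‖y‖ = 1) (n : ℕ) : ‖1 - y ^ n‖ ≤ n * ‖1 - y‖ := by
  induction n with
  | zero => simp
  | succ n ih =>
    have e : 1 - y ^ (n + 1) = (1 - y ^ n) + y ^ n * (1 - y) := by ring
    rw [e]
    refine (norm_add_le _ _).trans ?_
    rw [norm_mul, norm_pow, hy, one_pow, one_mul]
    push_cast
    linarith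

/-- the product of two consecutive factors -/
theorem rho_quant {q : ℕ} (hq : 2 ≤ q) {ω y : ℂ} (hω : ‖ω‖ = 1) (hy : ‖y‖ = 1) :
    ‖phi q y‖ * ‖phi q (ω * y ^ q)‖ ≤ 1 - ‖1 - ω‖ ^ 2 / (16 * q ^ 3) := by
  have hq0 : (0 : ℝ) < q := by positivity
  have hq1 : (1 : ℝ) ≤ q := by
    have : (2 : ℝ) ≤ q := by exact_mod_cast hq
    linarith
  have hy₁ : ‖ω * y ^ q‖ = 1 := by rw [norm_mul, norm_pow, hω, hy]; simp
  have a1 := norm_phi_le hq hy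
  have a2 := norm_phi_le hq hy₁
  have b1 := norm_nonneg (phi q y)
  have b2 := norm_nonneg (phi q (ω * y ^ q))
  have htri : ‖1 - ω‖ ≤ ‖1 - ω * y ^ q‖ + q * ‖1 - y‖ := by
    have e : 1 - ω = (1 - ω * y ^ q) - ω * (1 - y ^ q) := by ring
    rw [e]
    refine (norm_sub_le _ _).trans ?_
    rw [norm_mul, hω, one_mul]
    have := norm_one_sub_pow_le hy q
    linarith
  have hδ := norm_nonneg (1 - ω)
  by_cases h : ‖1 - ω‖ / 2 ≤ ‖1 - ω * y ^ q‖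
  · have c1 := norm_phi_quant hq hy₁
    have c2 : ‖1 - ω‖ ^ 2 / (16 * q ^ 3) ≤ ‖1 - ω * y ^ q‖ ^ 2 / (4 * q) := by
      have d1 : ‖1 - ω‖ ^ 2 / 4 ≤ ‖1 - ω * y ^ q‖ ^ 2 := by nlinarith
      have d2 : (q : ℝ) ≤ q ^ 3 := by
        calc (q : ℝ) = q ^ 1 := (pow_one _).symm
          _ ≤ q ^ 3 := pow_le_pow_right₀ hq1 (by norm_num)
      calc ‖1 - ω‖ ^ 2 / (16 * q ^ 3) ≤ ‖1 - ω‖ ^ 2 / (16 * q) := by gcongr
        _ = (‖1 - ω‖ ^ 2 / 4) / (4 * q) := by ring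
        _ ≤ _ := by gcongr
    nlinarith
  · push Not at h
    have h' : ‖1 - ω‖ / 2 ≤ q * ‖1 - y‖ := by linarith
    have c1 := norm_phi_quant hq hy
    have c2 : ‖1 - ω‖ ^ 2 / (16 * q ^ 3) ≤ ‖1 - y‖ ^ 2 / (4 * q) := by
      have d1 : ‖1 - ω‖ ^ 2 / 4 ≤ q ^ 2 * ‖1 - y‖ ^ 2 := by nlinarith [norm_nonneg (1 - y)]
      calc ‖1 - ω‖ ^ 2 / (16 * q ^ 3) = (‖1 - ω‖ ^ 2 / 4) / (4 * q ^ 3) := by ring
        _ ≤ (q ^ 2 * ‖1 - y‖ ^ 2) / (4 * q ^ 3) := by gcongr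
        _ = ‖1 - y‖ ^ 2 / (4 * q) := by field_simp
    nlinarith

/-- quantitative decay of the sums over blocks -/
theorem decay_quant {q : ℕ} (hq : 2 ≤ q) {F : ℕ → ℂ} (hF : Dig q F) {ω : ℂ} (hω : ‖ω‖ = 1)
    (hd : ∀ t d, d < q → F (q ^ t * d) = F (q ^ t) ^ d)
    (hs : ∀ t, F (q ^ (t + 1)) = ω * F (q ^ t) ^ q) (t : ℕ) (z : ℂ) (hz : ‖z‖ = 1) :
    ‖∑ v ∈ range (q ^ (2 * t)), F v * z ^ v‖ ≤
      Real.exp (-(‖1 - ω‖ ^ 2 / (16 * q ^ 3) * t)) * (q : ℝ) ^ (2 * t) := by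
  have hstep : ∀ (t : ℕ) (z : ℂ), ∑ v ∈ range (q ^ (t + 1)), F v * z ^ v =
      (∑ d ∈ range q, (F (q ^ t) * z ^ (q ^ t)) ^ d) * ∑ v ∈ range (q ^ t), F v * z ^ v := by
    intro t z
    rw [pow_succ, sum_range_mul', sum_mul]
    refine sum_congr rfl fun d hd' => ?_
    rw [mem_range] at hd'
    rw [mul_sum]
    refine sum_congr rfl fun v hv => ?_
    rw [mem_range] at hv
    rw [hF.mul t d v hv, hd t d hd', pow_add, pow_mul, mul_pow]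
    ring
  have hphi : ∀ (t : ℕ) (z : ℂ), ‖z‖ = 1 → ‖∑ v ∈ range (q ^ (t + 1)), F v * z ^ v‖ =
      q * ‖phi q (F (q ^ t) * z ^ (q ^ t))‖ * ‖∑ v ∈ range (q ^ t), F v * z ^ v‖ := by
    intro t z _
    have hq0 : (q : ℝ) ≠ 0 := by positivity
    rw [hstep, norm_mul, phi, norm_mul, norm_inv, Complex.norm_natCast, ← mul_assoc,
      mul_inv_cancel₀ hq0, one_mul]
  induction t with
  | zero => simp [hF.norm 0]
  | succ t ih =>
    rw [show 2 * (t + 1) = (2 * t + 1) + 1 by ring, hphi _ z hz, hphi _ z hz]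
    set y := F (q ^ (2 * t)) * z ^ (q ^ (2 * t)) with hy
    have hy1 : ‖y‖ = 1 := by rw [hy, norm_mul, norm_pow, hz, hF.norm]; simp
    have hy2 : F (q ^ (2 * t + 1)) * z ^ (q ^ (2 * t + 1)) = ω * y ^ q := by
      rw [hs, hy, mul_pow, pow_succ q, pow_mul]; ring
    rw [hy2]
    have h1 := rho_quant hq hω hy1
    have h1' : ‖phi q y‖ * ‖phi q (ω * y ^ q)‖ ≤ Real.exp (-(‖1 - ω‖ ^ 2 / (16 * q ^ 3))) := by
      refine h1.trans ?_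
      have := Real.add_one_le_exp (-(‖1 - ω‖ ^ 2 / (16 * (q : ℝ) ^ 3)))
      linarith
    have h2 := norm_nonneg (∑ v ∈ range (q ^ (2 * t)), F v * z ^ v)
    have h3 : Real.exp (-(‖1 - ω‖ ^ 2 / (16 * q ^ 3) * ((t + 1 : ℕ) : ℝ))) =
        Real.exp (-(‖1 - ω‖ ^ 2 / (16 * q ^ 3))) *
          Real.exp (-(‖1 - ω‖ ^ 2 / (16 * q ^ 3) * t)) := by
      rw [← Real.exp_add]
      congr 1
      push_cast
      ring
    rw [h3]
    calc (q : ℝ) * ‖phi q (ω * y ^ q)‖ * (q * ‖phi q y‖ *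
          ‖∑ v ∈ range (q ^ (2 * t)), F v * z ^ v‖)
        = (q : ℝ) ^ 2 * (‖phi q y‖ * ‖phi q (ω * y ^ q)‖) *
          ‖∑ v ∈ range (q ^ (2 * t)), F v * z ^ v‖ := by ring
      _ ≤ (q : ℝ) ^ 2 * Real.exp (-(‖1 - ω‖ ^ 2 / (16 * q ^ 3))) *
          (Real.exp (-(‖1 - ω‖ ^ 2 / (16 * q ^ 3) * t)) * (q : ℝ) ^ (2 * t)) := by
          gcongr
      _ = _ := by ring

end UPI
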